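import Mathlib
import Pool.Agent.Lib.H53M.Defs

/-!
# H33I, I4: a finite independent family of power series stays independent modulo `p`

* `exists_minor`: rows with trivial common kernel contain an invertible square minor;
* `indep_red`: over a domain `R` (for instance `ℤ`, `𝓞 E`): there are `m` and `d ≠ 0` such that
  for every ring homomorphism `φ` to a field with `φ d ≠ 0` the images of the family are
  independent already on the coefficients `< m`;
* `indep_redQ`: the same over `ℚ`, for the reduction `redQ p`, all large `p`.
-/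

namespace H33I

open PowerSeries H53M

/-- Rows with trivial common kernel contain an invertible square minor. -/
theorem exists_minor {K : Type*} [Field K] {ι : Type*} [Fintype ι] [DecidableEq ι]
    (a : ℕ → ι → K) (h : ∀ c : ι → K, (∀ n, ∑ i, c i * a n i = 0) → c = 0) :
    ∃ e : ι → ℕ, (Matrix.of fun i j => a (e i) j).det ≠ 0 := by
  have htop : Submodule.span K (Set.range a) = ⊤ := by
    by_contra hne
    obtain ⟨f, hf0, hf⟩ := Submodule.exists_le_ker_of_lt_top _ (lt_top_iff_ne_top.2 hne)
    have hc : (fun i => f (Pi.single i 1)) = (0 : ι → K) := by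
      apply h
      intro n
      have h1 : f (a n) = 0 := hf (Submodule.subset_span ⟨n, rfl⟩)
      have h2 : a n = ∑ i, a n i • (Pi.single i (1 : K) : ι → K) := by
        funext j
        simp [Finset.sum_apply, Pi.single_apply]
      rw [h2, map_sum] at h1
      rw [← h1]
      refine Finset.sum_congr rfl fun i _ => ?_
      rw [map_smul, smul_eq_mul, mul_comm]
    apply hf0
    apply LinearMap.pi_ext'
    intro i
    apply LinearMap.ext_ring
    have := congrFun hc i
    simpa using this
  obtain ⟨f, hf1, -, hf3⟩ := Submodule.exists_fun_fin_finrank_span_eq K (Set.range a)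
  have hcard : Module.finrank K (Submodule.span K (Set.range a)) = Fintype.card ι := by
    rw [htop, finrank_top, Module.finrank_pi]
  let q : ι ≃ Fin (Module.finrank K (Submodule.span K (Set.range a))) :=
    (Fintype.equivFin ι).trans (finCongr hcard.symm)
  choose g hg using hf1
  refine ⟨fun i => g (q i), ?_⟩
  have hli : LinearIndependent K (Matrix.of fun i j => a (g (q i)) j).row := by
    have : (Matrix.of fun i j => a (g (q i)) j).row = f ∘ q := by
      funext i j
      simp [Matrix.row, hg]
    rw [this]
    exact hf3.comp _ q.injective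
  exact ((Matrix.isUnit_iff_isUnit_det _).1
    (Matrix.linearIndependent_rows_iff_isUnit.1 hli)).ne_zero

/-- A finite family of power series over a domain which is linearly independent stays independent
under every homomorphism to a field which does not kill a certain `d ≠ 0`. -/
theorem indep_red {R : Type*} [CommRing R] [IsDomain R] {ι : Type*} [Fintype ι]
    (F : ι → PowerSeries R) (hF : LinearIndependent R F) :
    ∃ (m : ℕ) (d : R), d ≠ 0 ∧ ∀ (k : Type*) [Field k] (φ : R →+* k), φ d ≠ 0 →
      ∀ c : ι → k, (∀ n < m, ∑ i, c i * φ (coeff n (F i)) = 0) → c = 0 := by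
  classical
  obtain ⟨e, he⟩ := exists_minor (K := FractionRing R)
    (fun n i => algebraMap R (FractionRing R) (coeff n (F i))) (by
      intro c hc
      obtain ⟨b, hb⟩ := IsLocalization.exist_integer_multiples_of_finite (nonZeroDivisors R) c
      choose w hw using hb
      have hw' : ∀ i, algebraMap R (FractionRing R) (w i) =
          algebraMap R (FractionRing R) (b : R) * c i := by
        intro i
        have := hw i
        rw [this, Algebra.smul_def]
      have hsum : ∑ i, w i • F i = 0 := by
        ext n
        apply IsFractionRing.injective R (FractionRing R)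
        rw [map_sum, map_sum]
        have := hc n
        simp only [map_zero]
        calc ∑ i, algebraMap R (FractionRing R) (coeff n (w i • F i))
            = ∑ i, algebraMap R (FractionRing R) (b : R) *
                (c i * algebraMap R (FractionRing R) (coeff n (F i))) := by
              refine Finset.sum_congr rfl fun i _ => ?_
              rw [coeff_smul, smul_eq_mul, map_mul, hw', mul_assoc]
          _ = 0 := by rw [← Finset.mul_sum, this, mul_zero]
      have hw0 := Fintype.linearIndependent_iff.1 hF w hsum
      funext i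
      have h1 := hw' i
      rw [hw0 i, map_zero] at h1
      have h2 : algebraMap R (FractionRing R) (b : R) ≠ 0 := by
        rw [Ne, IsFractionRing.to_map_eq_zero_iff]
        exact nonZeroDivisors.ne_zero b.2
      simpa [h2] using h1.symm)
  refine ⟨Finset.univ.sup e + 1, (Matrix.of fun i j => coeff (e i) (F j)).det, ?_, ?_⟩
  · intro h0
    apply he
    have := congrArg (algebraMap R (FractionRing R)) h0
    rw [RingHom.map_det, map_zero] at this
    rw [← this]
    rfl
  · intro k _ φ hφ c hc
    rw [RingHom.map_det] at hφ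
    apply Matrix.eq_zero_of_mulVec_eq_zero hφ
    funext i
    have := hc (e i) (Nat.lt_succ_of_le (Finset.le_sup (f := e) (Finset.mem_univ i)))
    rw [Pi.zero_apply, ← this]
    simp only [Matrix.mulVec, dotProduct, RingHom.mapMatrix_apply, Matrix.map_apply, Matrix.of_apply]
    exact Finset.sum_congr rfl fun j _ => mul_comm _ _

/-- The cast of a product with a cleared denominator. -/
private theorem cast_clear {p : ℕ} [Fact p.Prime] {q : ℚ} {D : ℕ} {z : ℤ}
    (hz : (D : ℚ) * q = z) (hD : q.den ∣ D) (hp : ¬ p ∣ D) :
    (D : ZMod p) * (q : ZMod p) = (z : ZMod p) := by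
  have hden : ((q.den : ℕ) : ZMod p) ≠ 0 := by
    rw [Ne, ZMod.natCast_eq_zero_iff]
    exact fun h => hp (h.trans hD)
  obtain ⟨t, rfl⟩ := hD
  have h1 : ((t : ℤ) * q.num : ℚ) = z := by
    rw [← hz]
    push_cast
    have : (q.den : ℚ) * q = q.num := Rat.den_mul_eq_num q
    calc (t : ℚ) * q.num = t * (q.den * q) := by rw [this]
      _ = _ := by ring
  have h2 : (t : ℤ) * q.num = z := by exact_mod_cast h1
  rw [Rat.cast_def, ← h2]
  push_cast
  field_simp

/-- The same for `redQ p`, all large `p`. -/
theorem indep_redQ {ι : Type*} [Fintype ι] (F : ι → PowerSeries ℚ) (hF : LinearIndependent ℚ F) :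
    ∃ m p₁ : ℕ, ∀ (p : ℕ) [Fact p.Prime], p₁ < p →
      ∀ c : ι → ZMod p, (∀ n < m, ∑ i, c i * coeff n (redQ p (F i)) = 0) → c = 0 := by
  classical
  obtain ⟨e, he⟩ := exists_minor (K := ℚ) (fun n i => coeff n (F i)) (by
      intro c hc
      apply funext
      apply Fintype.linearIndependent_iff.1 hF
      ext n
      rw [map_sum, map_zero, ← hc n]
      exact Finset.sum_congr rfl fun i _ => by rw [coeff_smul, smul_eq_mul])
  set D : ℕ := ∏ i, ∏ j, (coeff (e i) (F j)).den with hD
  have hDpos : 0 < D := Finset.prod_pos fun i _ => Finset.prod_pos fun j _ => Rat.den_pos _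
  have hdvd : ∀ i j, (coeff (e i) (F j)).den ∣ D := fun i j =>
    (Finset.dvd_prod_of_mem (fun j => (coeff (e i) (F j)).den) (Finset.mem_univ j)).trans
      (Finset.dvd_prod_of_mem (fun i => ∏ j, (coeff (e i) (F j)).den) (Finset.mem_univ i))
  have hex : ∀ i j, ∃ z : ℤ, (D : ℚ) * coeff (e i) (F j) = z := by
    intro i j
    obtain ⟨t, ht⟩ := hdvd i j
    refine ⟨t * (coeff (e i) (F j)).num, ?_⟩
    rw [ht]
    push_cast
    have : ((coeff (e i) (F j)).den : ℚ) * coeff (e i) (F j) = (coeff (e i) (F j)).num :=
      Rat.den_mul_eq_num _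
    calc ((coeff (e i) (F j)).den : ℚ) * t * coeff (e i) (F j)
        = t * ((coeff (e i) (F j)).den * coeff (e i) (F j)) := by ring
      _ = _ := by rw [this]
  choose N hN using hex
  have hdetQ : ((Matrix.of N).det : ℚ) ≠ 0 := by
    have h1 : ((Matrix.of N).map (Int.castRingHom ℚ)) =
        (D : ℚ) • (Matrix.of fun i j => coeff (e i) (F j)) := by
      ext i j
      simp [hN]
    have h2 : ((Matrix.of N).det : ℚ) = ((Matrix.of N).map (Int.castRingHom ℚ)).det := by
      have := RingHom.map_det (Int.castRingHom ℚ) (Matrix.of N)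
      simpa using this
    rw [h2, h1, Matrix.det_smul]
    exact mul_ne_zero (pow_ne_zero _ (by exact_mod_cast hDpos.ne')) he
  have hdet : (Matrix.of N).det ≠ 0 := by exact_mod_cast hdetQ
  refine ⟨Finset.univ.sup e + 1, D + (Matrix.of N).det.natAbs, ?_⟩
  intro p _ hp c hc
  have hpD : ¬ p ∣ D := fun h => by
    have := Nat.le_of_dvd hDpos h
    omega
  have hpN : ¬ ((p : ℤ) ∣ (Matrix.of N).det) := fun h => by
    have := Nat.le_of_dvd (Int.natAbs_pos.2 hdet) (Int.natCast_dvd.1 h)
    omega
  have hφ : ((Matrix.of N).map (Int.castRingHom (ZMod p))).det ≠ 0 := by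
    have := RingHom.map_det (Int.castRingHom (ZMod p)) (Matrix.of N)
    intro h0
    apply hpN
    rw [← ZMod.intCast_zmod_eq_zero_iff_dvd]
    rw [show ((Matrix.of N).det : ZMod p) = (Int.castRingHom (ZMod p)) (Matrix.of N).det from rfl,
      this]
    exact h0
  apply Matrix.eq_zero_of_mulVec_eq_zero hφ
  funext i
  have h3 := hc (e i) (Nat.lt_succ_of_le (Finset.le_sup (f := e) (Finset.mem_univ i)))
  have h4 : ∀ j, ((N i j : ℤ) : ZMod p) = (D : ZMod p) * coeff (e i) (redQ p (F j)) := by
    intro j
    rw [redQ, coeff_mk]
    exact (cast_clear (hN i j) (hdvd i j) hpD).symm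
  simp only [Matrix.mulVec, dotProduct, Matrix.map_apply, Matrix.of_apply, Pi.zero_apply]
  calc ∑ j, (Int.castRingHom (ZMod p)) (N i j) * c j
      = ∑ j, (D : ZMod p) * (c j * coeff (e i) (redQ p (F j))) := by
        refine Finset.sum_congr rfl fun j _ => ?_
        rw [show (Int.castRingHom (ZMod p)) (N i j) = ((N i j : ℤ) : ZMod p) from rfl, h4]
        ring
    _ = 0 := by rw [← Finset.mul_sum, h3, mul_zero]

end H33I
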