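import Pool.Agent.Lib.H33I.I4
import Pool.Agent.Lib.H53M.Q4C
import Pool.Agent.Lib.H36D.Defs

/-!
# H33I, I5: bounded algebraic independence modulo `p`

* `bounded_alg`: finitely many series over `ℚ`, algebraically independent over `ℚ`; for a bound
  `Dg` and all large `p` for which they are `p`-integral, no nonzero polynomial over `ℤ/p` of
  degree `≤ Dg` vanishes at their reductions;
* `hQ_of_alg`: the hypothesis `hQ` of `H22Z.indep_of_alg`;
* `alg_of_ind`: `ind` (over the power series with integral coefficients) and the algebraic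
  independence of `Δ, E₄` over `ℚ` give the algebraic independence of `h_σ, Δ, E₄` over `ℚ`;
* `hQ_of_ind`: both together.
-/

namespace H33I

open PowerSeries H53M

private theorem prod_aux {p : ℕ} [Fact p.Prime] {ι : Type*} (s : Finset ι) {f : ι → PowerSeries ℚ}
    (hf : ∀ i ∈ s, PInt p (f i)) : PInt p (∏ i ∈ s, f i) ∧
      redQ p (∏ i ∈ s, f i) = ∏ i ∈ s, redQ p (f i) := by
  classical
  induction s using Finset.induction_on with
  | empty =>
    have h1 := PInt_toQ (p := p) 1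
    have h2 := redQ_toQ (p := p) 1
    exact ⟨by simpa using h1, by simpa using h2⟩
  | insert a s ha ih =>
    obtain ⟨h1, h2⟩ := ih fun i hi => hf i (Finset.mem_insert_of_mem hi)
    have h3 := hf a (Finset.mem_insert_self a s)
    rw [Finset.prod_insert ha, Finset.prod_insert ha]
    exact ⟨PInt_mul h3 h1, by rw [redQ_mul h3 h1, h2]⟩

/-- Bounded algebraic independence modulo `p`. -/
theorem bounded_alg {σ : Type*} [Fintype σ] (H : σ → PowerSeries ℚ)
    (hI : AlgebraicIndependent ℚ H) (Dg : ℕ) :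
    ∃ p₁ : ℕ, ∀ (p : ℕ) [Fact p.Prime], p₁ < p → (∀ i, PInt p (H i)) →
      ∀ Q : MvPolynomial σ (ZMod p), Q.totalDegree ≤ Dg →
        MvPolynomial.aeval (fun i => redQ p (H i)) Q = 0 → Q = 0 := by
  classical
  let e : (σ → Fin (Dg + 1)) ↪ (σ →₀ ℕ) :=
    ⟨fun g => Finsupp.equivFunOnFinite.symm fun i => (g i : ℕ), by
      intro g g' h
      funext i
      apply Fin.ext
      simpa using DFunLike.congr_fun h i⟩
  have he : ∀ g i, e g i = (g i : ℕ) := fun g i => rfl
  have hF : LinearIndependent ℚ fun g : σ → Fin (Dg + 1) => ∏ i, H i ^ (g i : ℕ) := by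
    have h1 := (MvPolynomial.basisMonomials σ ℚ).linearIndependent
    have h2 := h1.map' (MvPolynomial.aeval (R := ℚ) H).toLinearMap
      (LinearMap.ker_eq_bot.2 hI)
    have h3 := h2.comp e e.injective
    have h4 : (fun g : σ → Fin (Dg + 1) => ∏ i, H i ^ (g i : ℕ)) =
        (((MvPolynomial.aeval (R := ℚ) H).toLinearMap ∘
          (MvPolynomial.basisMonomials σ ℚ)) ∘ e) := by
      funext g
      simp only [Function.comp_apply, MvPolynomial.coe_basisMonomials, AlgHom.toLinearMap_apply,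
        MvPolynomial.aeval_monomial, map_one, one_mul]
      rw [Finsupp.prod_fintype _ _ fun i => pow_zero _]
      rfl
    rw [h4]
    exact h3
  obtain ⟨m, p₁, hp₁⟩ := indep_redQ _ hF
  refine ⟨p₁, ?_⟩
  intro p _ hp hint Q hdeg hQ
  have hsupp : ∀ d ∈ Q.support, ∃ g, e g = d := by
    intro d hd
    have h1 : ∀ i, d i < Dg + 1 := by
      intro i
      have h2 := MvPolynomial.le_totalDegree hd
      have h3 : d i ≤ d.sum fun _ n => n := by
        rw [Finsupp.sum_fintype _ _ fun i => rfl]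
        exact Finset.single_le_sum (f := fun i => d i) (fun _ _ => Nat.zero_le _)
          (Finset.mem_univ i)
      omega
    exact ⟨fun i => ⟨d i, h1 i⟩, by ext i; rw [he]⟩
  have hsum : MvPolynomial.aeval (fun i => redQ p (H i)) Q =
      ∑ g : σ → Fin (Dg + 1), C (Q.coeff (e g)) * redQ p (∏ i, H i ^ (g i : ℕ)) := by
    rw [MvPolynomial.aeval_def, MvPolynomial.eval₂_eq']
    have h1 : Q.support ⊆ Finset.univ.map e := by
      intro d hd
      obtain ⟨g, hg⟩ := hsupp d hd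
      exact Finset.mem_map.2 ⟨g, Finset.mem_univ _, hg⟩
    rw [Finset.sum_subset h1, Finset.sum_map]
    · refine Finset.sum_congr rfl fun g _ => ?_
      rw [(prod_aux Finset.univ fun i _ => PInt_pow (hint i) (g i : ℕ)).2]
      congr 1
      refine Finset.prod_congr rfl fun i _ => ?_
      rw [redQ_pow (hint i), he]
    · intro d _ hd
      rw [MvPolynomial.notMem_support_iff.1 hd, map_zero, zero_mul]
  have hc := hp₁ p hp (fun g => Q.coeff (e g)) (by
    intro n _
    rw [hsum] at hQ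
    have := congrArg (coeff n) hQ
    rw [map_sum, map_zero] at this
    rw [← this]
    exact Finset.sum_congr rfl fun g _ => by rw [coeff_C_mul])
  ext d
  rw [MvPolynomial.coeff_zero]
  by_cases hd : d ∈ Q.support
  · obtain ⟨g, rfl⟩ := hsupp d hd
    exact congrFun hc g
  · exact MvPolynomial.notMem_support_iff.1 hd

/-- The hypothesis `hQ` of `H22Z.indep_of_alg`, for all large `p`. -/
theorem hQ_of_alg {r : ℕ} {h : Fin r → PowerSeries ℚ} {Exc : ℕ → Prop}
    (hint : ∀ σ n p, p.Prime → ¬ Exc p → ¬ p ∣ (coeff n (h σ)).den)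
    (hI : AlgebraicIndependent ℚ (Sum.elim h ![toQ dl, toQ e4])) (Dg : ℕ) :
    ∃ p₁ : ℕ, ∀ (p : ℕ) [Fact p.Prime], p₁ < p → ¬ Exc p →
      ∀ Q : MvPolynomial (Fin r ⊕ Fin 2) (ZMod p), Q.totalDegree ≤ Dg →
        MvPolynomial.aeval (Sum.elim (fun σ => redQ p (h σ)) ![redZ p dl, redZ p e4]) Q = 0 →
          Q = 0 := by
  obtain ⟨p₁, hp₁⟩ := bounded_alg _ hI Dg
  refine ⟨p₁, ?_⟩
  intro p hpp hp hE Q hdeg hQ
  refine hp₁ p hp ?_ Q hdeg ?_
  · rintro (i | i)
    · exact fun n => hint i n p hpp.out hE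
    · fin_cases i
      · exact PInt_toQ dl
      · exact PInt_toQ e4
  · have h1 : (fun i => redQ p (Sum.elim h ![toQ dl, toQ e4] i)) =
        Sum.elim (fun σ => redQ p (h σ)) ![redZ p dl, redZ p e4] := by
      funext i
      rcases i with i | i
      · rfl
      · fin_cases i
        · exact redQ_toQ dl
        · exact redQ_toQ e4
    rw [h1]
    exact hQ

/-- Elements of the algebra generated by integral series have bounded denominators. -/
private theorem adjoin_int {τ : Type*} (x : τ → PowerSeries ℤ) {a : PowerSeries ℚ}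
    (ha : a ∈ Algebra.adjoin ℚ (Set.range fun j => toQ (x j))) :
    ∃ D : ℤ, D ≠ 0 ∧ ∃ P : PowerSeries ℤ, (D : ℚ) • a = toQ P := by
  induction ha using Algebra.adjoin_induction with
  | mem y hy =>
    obtain ⟨j, rfl⟩ := hy
    exact ⟨1, one_ne_zero, x j, by simp⟩
  | algebraMap q =>
    refine ⟨q.den, by exact_mod_cast q.den_ne_zero, C q.num, ?_⟩
    rw [map_C, PowerSeries.algebraMap_apply, Algebra.algebraMap_self, RingHom.id_apply,
      smul_eq_C_mul, ← map_mul]
    congr 1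
    simp
  | add y z _ _ hy hz =>
    obtain ⟨D, hD, P, hP⟩ := hy
    obtain ⟨E, hE, R, hR⟩ := hz
    refine ⟨D * E, mul_ne_zero hD hE, C E * P + C D * R, ?_⟩
    rw [map_add, map_mul, map_mul, map_C, map_C, ← hP, ← hR, ← smul_eq_C_mul, ← smul_eq_C_mul,
      smul_add]
    simp only [eq_intCast, Int.cast_mul, smul_smul]
    rw [mul_comm (E : ℚ) D]
  | mul y z _ _ hy hz =>
    obtain ⟨D, hD, P, hP⟩ := hy
    obtain ⟨E, hE, R, hR⟩ := hz
    refine ⟨D * E, mul_ne_zero hD hE, P * R, ?_⟩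
    rw [map_mul, ← hP, ← hR, smul_mul_smul_comm, Int.cast_mul]

/-- Algebraic independence over `ℚ` of `h_σ` together with integral series. -/
theorem alg_of_ind' {r : ℕ} {h : Fin r → PowerSeries ℚ} {τ : Type*} (x : τ → PowerSeries ℤ)
    (ind : ∀ (S : Finset (Fin r → ℕ)) (P : (Fin r → ℕ) → PowerSeries ℤ), (∃ α ∈ S, P α ≠ 0) →
      ∑ α ∈ S, toQ (P α) * H36D.Hm h α ≠ 0)
    (hx : AlgebraicIndependent ℚ fun j => toQ (x j)) :
    AlgebraicIndependent ℚ (Sum.elim h fun j => toQ (x j)) := by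
  classical
  refine hx.sumElim ?_
  rw [algebraicIndependent_iff]
  intro Q hQ
  by_contra hne
  have hden : ∀ a : Algebra.adjoin ℚ (Set.range fun j => toQ (x j)), 
      ∃ D : ℤ, D ≠ 0 ∧ ∃ P : PowerSeries ℤ, (D : ℚ) • (a : PowerSeries ℚ) = toQ P :=
    fun a => adjoin_int x a.2
  choose D hD P hP using hden
  set T : ℤ := ∏ d ∈ Q.support, D (Q.coeff d) with hT
  have hT0 : T ≠ 0 := Finset.prod_ne_zero_iff.2 fun d _ => hD _
  have hex : ∀ d ∈ Q.support, ∃ R : PowerSeries ℤ,
      (T : ℚ) • (Subtype.val (Q.coeff d)) = toQ R := by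
    intro d hd
    obtain ⟨t, ht⟩ := Finset.dvd_prod_of_mem (fun d => D (Q.coeff d)) hd
    refine ⟨C t * P (Q.coeff d), ?_⟩
    rw [map_mul, map_C, ← hP, hT, ht, ← smul_eq_C_mul, smul_smul]
    simp only [eq_intCast, Int.cast_mul]
    rw [mul_comm (D (Q.coeff d) : ℚ)]
  have hex2 : ∀ d : Fin r →₀ ℕ, ∃ R : PowerSeries ℤ,
      (T : ℚ) • (Subtype.val (Q.coeff d)) = toQ R := by
    intro d
    by_cases hd : d ∈ Q.support
    · exact hex d hd
    · exact ⟨0, by rw [MvPolynomial.notMem_support_iff.1 hd]; simp⟩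
  choose R hR using hex2
  let u : (Fin r →₀ ℕ) ↪ (Fin r → ℕ) := ⟨fun d => d, DFunLike.coe_injective⟩
  let v : (Fin r → ℕ) → (Fin r →₀ ℕ) := fun d => Finsupp.equivFunOnFinite.symm d
  have hvu : ∀ d : Fin r →₀ ℕ, v d = d := fun d => Finsupp.equivFunOnFinite.symm_apply_apply d
  refine ind (Q.support.map u) (fun α => R (v α)) ?_ ?_
  · obtain ⟨d, hd⟩ := MvPolynomial.support_nonempty.2 hne
    refine ⟨u d, Finset.mem_map_of_mem u hd, ?_⟩
    intro h0
    have h0' : R d = 0 := by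
      have h1 : v (u d) = d := hvu d
      rw [h1] at h0
      exact h0
    have h2 := hR d
    rw [h0', map_zero] at h2
    have h3 : (Subtype.val (Q.coeff d)) = 0 :=
      (smul_eq_zero.1 h2).resolve_left (by exact_mod_cast hT0)
    exact MvPolynomial.mem_support_iff.1 hd (Subtype.ext h3)
  · rw [Finset.sum_map]
    have h1 : MvPolynomial.aeval h Q =
        ∑ d ∈ Q.support, (Subtype.val (Q.coeff d)) * ∏ i, h i ^ d i := by
      rw [MvPolynomial.aeval_def, MvPolynomial.eval₂_eq']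
      rfl
    have h2 : (T : ℚ) • MvPolynomial.aeval h Q = 0 := by rw [hQ, smul_zero]
    rw [h1, Finset.smul_sum] at h2
    rw [← h2]
    refine Finset.sum_congr rfl fun d _ => ?_
    have h3 : v (u d) = d := hvu d
    rw [← smul_mul_assoc, hR, h3]
    rfl

/-- Algebraic independence over `ℚ` of `h_σ, Δ, E₄`. -/
theorem alg_of_ind {r : ℕ} {h : Fin r → PowerSeries ℚ}
    (ind : ∀ (S : Finset (Fin r → ℕ)) (P : (Fin r → ℕ) → PowerSeries ℤ), (∃ α ∈ S, P α ≠ 0) →
      ∑ α ∈ S, toQ (P α) * H36D.Hm h α ≠ 0)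
    (hx : AlgebraicIndependent ℚ ![toQ dl, toQ e4]) :
    AlgebraicIndependent ℚ (Sum.elim h ![toQ dl, toQ e4]) := by
  have h1 : (![toQ dl, toQ e4] : Fin 2 → PowerSeries ℚ) = fun j => toQ (![dl, e4] j) := by
    funext j
    fin_cases j <;> rfl
  rw [h1] at hx ⊢
  exact alg_of_ind' _ ind hx

/-- `hQ` from `ind`, the integrality and the algebraic independence of `Δ, E₄`. -/
theorem hQ_of_ind {r : ℕ} {h : Fin r → PowerSeries ℚ} {Exc : ℕ → Prop}
    (hint : ∀ σ n p, p.Prime → ¬ Exc p → ¬ p ∣ (coeff n (h σ)).den)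
    (ind : ∀ (S : Finset (Fin r → ℕ)) (P : (Fin r → ℕ) → PowerSeries ℤ), (∃ α ∈ S, P α ≠ 0) →
      ∑ α ∈ S, toQ (P α) * H36D.Hm h α ≠ 0)
    (hx : AlgebraicIndependent ℚ ![toQ dl, toQ e4]) (Dg : ℕ) :
    ∃ p₁ : ℕ, ∀ (p : ℕ) [Fact p.Prime], p₁ < p → ¬ Exc p →
      ∀ Q : MvPolynomial (Fin r ⊕ Fin 2) (ZMod p), Q.totalDegree ≤ Dg →
        MvPolynomial.aeval (Sum.elim (fun σ => redQ p (h σ)) ![redZ p dl, redZ p e4]) Q = 0 →
          Q = 0 :=
  hQ_of_alg hint (alg_of_ind ind hx) Dg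

end H33I
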